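import Mathlib
import Pool.Agent.K7.H62.Alm4

/-!
# The prime tuples conjecture holds for almost all vectors of a Bohr set

Fix `k`. For `q ≥ 1` and `r` coprime to `q` call a vector `v` of `k` distinct nonzero integers good if
`N, N + q v_1, ..., N + q v_k` are all prime for infinitely many `N ≡ r (mod q)`. For real numbers
`θ_1, ..., θ_d` and `ρ > 0` let `B = B(H, θ, ρ)` be the Bohr set of all integers `h` with `|h| ≤ H` and
`‖h θ_j‖ ≤ ρ` for all `j` (`‖ ‖` is the distance to the nearest integer).

**Theorem.** For every `k` and `ε > 0` there are `d, M, H₀` and `ρ, c > 0` such that for all `q, r` as above and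
EVERY `H ≥ H₀` there are `θ_1, ..., θ_d` such that `|B| ≥ c H` and for all but at most `ε |B| ^ k` of the vectors
`h` in `B ^ k` the vector `M h` is good. Moreover this holds at every large scale: there is `C` such that for all
large `x` there are `θ_1, ..., θ_d` such that `|B| ≥ c H` and for all but at most `ε |B| ^ k` of the vectors `h`
in `B ^ k` there are at least `x / (log x) ^ C` primes `N ≤ x`, `N ≡ r (mod q)`, for which all
`N + q M h_1, ..., N + q M h_k` are prime. (As there are only finitely many sets `B` and subsets of `B ^ k` for a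
given `H`, the second statement implies the first one.)

So the prime tuples conjecture is true for `100 (1 - ε)` percent of the vectors of a set which is highly
structured (it contains `0`, and the set of the integers satisfying its conditions is syndetic and is closed under
addition up to a change of `ρ`). Known before was that a positive proportion of the tuples satisfy the conjecture
(Maynard), the proportion being `(5 / 18) ^ k` of the tuples of an admissible set in the starting files, that for
almost all `h` SOME bounded multiple of `h` is good, and that there are nearly complete sets `W` of shifts (my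
hand-in `NearlyCompleteCover`), which are sets without any structure.

Proof. There is a set `A` of more than a quarter of the integers of `[1, H]` such that all but a tiny proportion
of the `(k + 1)`-tuples `a` of elements of `A` give good vectors `M (a_i - a_0)_i`. The spectrum of `A` is divided
in levels; by the pigeonhole principle there is a level with little energy between it and the next one, and the
coefficients below the next level are much smaller than the square root of the density of the Bohr set `B` of
the frequencies above the level. Then `A` is so uniform relative to `B` that for almost all `h` in `B ^ k` the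
number of the `x` with `x, x + h_1, ..., x + h_k` in `A` is the expected one up to a small multiple of `H`, and
the expected one is at least `(|A| / (2 H + 1)) ^ (k + 1) (2 H + 1)`.
-/

set_option autoImplicit false

namespace Pool.Agent.Results.MP_8923e7_nt.AlmostAllBohr

open Finset Filter

/-- the primes `N ≡ r` modulo `q` such that all `N + q v_i` are prime -/
def Primes (q : ℕ) (r : ℤ) {k : ℕ} (v : Fin k → ℤ) : Set ℕ :=
  {N : ℕ | N.Prime ∧ (N : ℤ) ≡ r [ZMOD q] ∧ ∀ i, ∃ p : ℕ, p.Prime ∧ (p : ℤ) = N + q * v i}

/-- the vectors of shifts which satisfy the prime tuples conjecture, with all primes in the class `r` modulo `q` -/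
def Good (q : ℕ) (r : ℤ) {k : ℕ} (v : Fin k → ℤ) : Prop :=
  Function.Injective v ∧ (∀ i, v i ≠ 0) ∧ (Primes q r v).Infinite

/-- the same at the scale `x`: at least `x / (log x) ^ C` prime tuples up to `x` -/
def GoodAt (C x q : ℕ) (r : ℤ) {k : ℕ} (v : Fin k → ℤ) : Prop :=
  Function.Injective v ∧ (∀ i, v i ≠ 0) ∧
    (x : ℝ) / (Real.log x) ^ C ≤ (({N : ℕ | N ∈ Primes q r v ∧ N ≤ x}).ncard : ℝ)

/-- the Bohr set -/
noncomputable def Bohr {d : ℕ} (H : ℕ) (θ : Fin d → ℝ) (ρ : ℝ) : Finset ℤ :=
  (Icc (-(H : ℤ)) H).filter (fun h => ∀ j, |(h : ℝ) * θ j - round ((h : ℝ) * θ j)| ≤ ρ)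

open Classical in
/-- all but at most `ε |B| ^ k` of the vectors of `B ^ k` have the property `P` -/
def AlmostAll {k : ℕ} (ε : ℝ) (B : Finset ℤ) (P : (Fin k → ℤ) → Prop) : Prop :=
  (((Fintype.piFinset (fun _ : Fin k => B)).filter (fun h => ¬ P h)).card : ℝ) ≤ ε * (B.card : ℝ) ^ k

theorem result (k : ℕ) (ε : ℝ) (hε : 0 < ε) : ∃ (d M H₀ : ℕ) (ρ c : ℝ), 1 ≤ M ∧ 0 < ρ ∧ 0 < c ∧
    ∀ (q : ℕ) (r : ℤ), 1 ≤ q → IsCoprime r (q : ℤ) → ∀ H : ℕ, H₀ ≤ H →
      (∃ θ : Fin d → ℝ, c * H ≤ ((Bohr H θ ρ).card : ℝ) ∧
        AlmostAll ε (Bohr H θ ρ) (fun h : Fin k → ℤ => Good q r (fun i => (M : ℤ) * h i))) ∧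
      ∃ C : ℕ, ∀ᶠ x : ℕ in atTop, ∃ θ : Fin d → ℝ, c * H ≤ ((Bohr H θ ρ).card : ℝ) ∧
        AlmostAll ε (Bohr H θ ρ) (fun h : Fin k → ℤ => GoodAt C x q r (fun i => (M : ℤ) * h i)) :=
  Pool.Agent.K7.H62.almost_all k ε hε

end Pool.Agent.Results.MP_8923e7_nt.AlmostAllBohr
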