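import Mathlib
import Pool.Agent.K7.H62.Sum

/-!
# Every multiple of a suitable number is a sum of four vectors which satisfy the prime tuples conjecture

Fix `k`, `q ≥ 1` and `r` coprime to `q`, and call a vector `v` of `k` distinct nonzero integers good if
`N, N + q v_1, ..., N + q v_k` are all prime for infinitely many `N ≡ r (mod q)`.

**Theorem.** There is `M ≥ 1` such that for EVERY vector `w` of `k` integers the vector `M w` is a sum of exactly
`s` good vectors, for every `s ≥ 4`; if `k ≤ 4` this also holds for `s = 3`, and if `k = 1` for `s = 2`. More
generally `M w = σ_1 v_1 + ... + σ_s v_s` with good `v_1, ..., v_s` for any given signs `σ_j = ± 1`.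
(The condition on `s ≥ 2` is `(k + 1) (18 - 5 s) < 18`.)

Known before (starting file ExplicitGeneration): all vectors divisible by 4, or all vectors divisible by 6, are
sums of exactly `m` good vectors for every `m ≥ 8 k (k + 1)`. Here the number of the summands does not depend
on `k`, at the price of a larger `M`.

Proof. By the structure theorem of `Pool.Agent.K7.H62.Gen` there are for all large `n` sets `A` of at least
`(5 / 18 - ε) n` of the integers `1, ..., n` such that all but a tiny proportion of the `(k + 1)`-tuples `a` of
elements of `A` give good vectors `M₀ (a_i - a_0)_i`. The number of representations of `u` as a sum of `s` elements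
of `± A` is an almost periodic function of `u`, with a number of frequencies which is bounded independently of
`n`. By compactness, by Kronecker's theorem for rationally independent numbers and by the choice of a torsion
point of large prime order `p` one gets a number `D`, integers `y_e` for the residues `e` modulo `p` and sets
`S_x` of at least `(5 / 18 - ε) p` residues, for many `x`, such that `x + D y_e` is in `± A` for `e` in `S_x`, and
such that the number of representations hardly changes when `D y_e + D y_f` is replaced by `D y_{e + f}`. By
Pollard's theorem almost `min (1, 5 s / 18)` of the residues modulo `p` are popular sums of `s` elements of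
such sets. Hence for given `w` there are many `u` such that all of `u, u + D w_1, ..., u + D w_k` have many
representations, and some of them avoid the few exceptional tuples. (For more summands one adds good vectors which
are multiples of `M`.)
-/

set_option autoImplicit false

namespace Pool.Agent.Results.MP_8923e7_nt.FourSummands

open Finset

/-- the vectors of shifts which satisfy the prime tuples conjecture, with all primes in the class `r` modulo `q` -/
def Good (q : ℕ) (r : ℤ) {k : ℕ} (v : Fin k → ℤ) : Prop :=
  Function.Injective v ∧ (∀ i, v i ≠ 0) ∧
    {N : ℕ | N.Prime ∧ (N : ℤ) ≡ r [ZMOD q] ∧ ∀ i, ∃ p : ℕ, p.Prime ∧ (p : ℤ) = N + q * v i}.Infinite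

theorem result (k q : ℕ) (r : ℤ) (hq : 1 ≤ q) (hqr : IsCoprime r (q : ℤ)) : ∃ M : ℕ, 1 ≤ M ∧
    ∀ s : ℕ, 2 ≤ s → 18 * (k + 1) < 18 + 5 * s * (k + 1) → ∀ σ : Fin s → ℤ, (∀ j, σ j = 1 ∨ σ j = -1) →
      ∀ w : Fin k → ℤ, ∃ v : Fin s → Fin k → ℤ, (∀ j, Good q r (v j)) ∧
        ∀ i, ∑ j, σ j * v j i = (M : ℤ) * w i :=
  Pool.Agent.K7.H62.sum_all k q r hq hqr

end Pool.Agent.Results.MP_8923e7_nt.FourSummands
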