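import Mathlib
import Pool.Agent.K7.H62.Pat

/-!
# Every large set of shifts is covered by subsets almost all of whose tuples satisfy the prime tuples conjecture

The results known so far say that a positive proportion, `(5/18) ^ k`, of the `(k + 1)`-tuples of shifts taken
from any large set `V` without local obstructions satisfy the prime tuples conjecture. Here it is shown that these
tuples can be found as ALMOST ALL tuples of large subsets of `V`, and that such subsets cover `V` uniformly:

for all `k` and `ε > 0` there are `z`, `n₀` and `m` such that every set `V` of `n ≥ n₀` natural numbers which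
misses a residue class modulo every prime `p ≤ z` has `m` subsets `W_1, ..., W_m` with

* for every `j` all but `ε n ^ (k + 1)` of the `(k + 1)`-tuples of elements of `W_j` satisfy the prime tuples
  conjecture;
* all but `ε n` elements of `V` are in at least `(5/18 - ε) m` and at most `(5/18 + ε) m` of the `m` sets `W_j`.

In particular `V` has a subset with at least `(5/18 - 2 ε) n` elements almost all of whose `(k + 1)`-tuples
satisfy the conjecture, and `V` is, up to few elements, a union of boundedly many such subsets. The proportion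
`(5/18) ^ k` of all tuples is a consequence (`NarrowPatterns`, starting files).

The theorem is uniform in a modulus `q` and a class `b`, and the conclusion for the tuples is the strong form of
`NarrowPatterns`: for every length `l` and radius `R` there are `C` and arbitrarily large `N` such that EVERY
tuple `a` in the family `G` and EVERY set `J` of indices have a difference `1 ≤ d ≤ (log N) ^ C` with: for at
least `N / (log N) ^ C` integers `n ≤ N` all `l` numbers `m = n, n + d, ..., n + (l - 1) d` are `≡ b` modulo `q`,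
exactly those of `m + a_0, ..., m + a_k` with index in `J` are prime, and all primes in `[m - R, m + R]` are in
`m + V`. Moreover there are such coverings at EVERY large `N` (depending on `N`).

Proof. By the coloured Maynard-Tao theorem with the constant `18/5` (`Pool.Agent.Y827.HN.patRD`), Erdős's box
lemma and linear programming duality, almost every sample `x_1, ..., x_T` of `T` elements of `V` has a random
subset in the family of good sets containing each `x_i` with probability `5/18`. This gives an exchangeable random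
sequence of flagged elements. After `j` terms of the sequence let `φ_j` be the conditional probability of the flag
of a further element. The energies of the `φ_j` increase, so for some bounded `j` the flags of the next `k + 1`
elements are almost independent, given the elements and the first `j` terms; hence the product of `φ_j` over almost
every tuple which is not good is almost zero, and the level sets of `φ_j` are the sets `W`
(`Pool.Agent.K7.H62.cover_gen`).
-/

set_option autoImplicit false

namespace Pool.Agent.Results.MP_8923e7_nt.NearlyCompleteCover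

open Filter Finset

open Classical in
/-- the number of the `1 ≤ n ≤ N` such that for each `m = n, n + d, ..., n + (l - 1) d`: `m ≡ b` modulo `q`,
exactly those `m + a i` with `i ∈ J` are prime, and every prime in `[m - R, m + R]` is in `m + V` -/
noncomputable def starts {k : ℕ} (V : Finset ℕ) (a : Fin (k + 1) → ℕ) (J : Finset (Fin (k + 1)))
    (q b R l d N : ℕ) : ℕ :=
  ((Icc 1 N).filter (fun n : ℕ => ∀ j < l, n + j * d ≡ b [MOD q] ∧
    (∀ i, (n + j * d + a i).Prime ↔ i ∈ J) ∧
    ∀ x : ℕ, x.Prime → n + j * d ≤ x + R → x ≤ n + j * d + R → ∃ v ∈ V, x = n + j * d + v)).card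

/-- `G` consists of `(k + 1)`-tuples of distinct elements of `V`; the sets `W j` are subsets of `V`; for every
`j` at most `ε |V| ^ (k + 1)` tuples of elements of `W j` are not in `G`; and at most `ε |V|` elements of `V`
violate `(5 / 18 - ε) m ≤ #{j : v ∈ W j} ≤ (5 / 18 + ε) m` -/
def Cover (k m : ℕ) (ε : ℝ) (V : Finset ℕ) (W : Fin m → Finset ℕ) (G : Finset (Fin (k + 1) → ℕ)) : Prop :=
  (∀ a ∈ G, (∀ i, a i ∈ V) ∧ Function.Injective a) ∧ (∀ j, W j ⊆ V) ∧
  (∀ j, ({a : Fin (k + 1) → ℕ | (∀ i, a i ∈ W j) ∧ a ∉ G}.ncard : ℝ) ≤ ε * (V.card : ℝ) ^ (k + 1)) ∧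
  ({v : ℕ | v ∈ V ∧ ¬ ((5 / 18 - ε) * m ≤ ({j : Fin m | v ∈ W j}.ncard : ℝ) ∧
    ({j : Fin m | v ∈ W j}.ncard : ℝ) ≤ (5 / 18 + ε) * m)}.ncard : ℝ) ≤ ε * V.card

theorem cover_of {k m : ℕ} (hm : 1 ≤ m) {ε : ℝ} {V : Finset ℕ} {W : Fin m → Finset ℕ}
    {G : Finset (Fin (k + 1) → ℕ)} (h : Pool.Agent.K7.H62.IsCov k m ε V W G) : Cover k m ε V W G := by
  classical
  obtain ⟨h1, h2, h3, h4⟩ := h
  have hm0 : (0 : ℝ) < m := by exact_mod_cast hm
  refine ⟨h1, h2, fun j => ?_, ?_⟩
  · have e : {a : Fin (k + 1) → ℕ | (∀ i, a i ∈ W j) ∧ a ∉ G} =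
        (((Fintype.piFinset (fun _ : Fin (k + 1) => W j)).filter (fun a => a ∉ G) :
          Finset (Fin (k + 1) → ℕ)) : Set (Fin (k + 1) → ℕ)) := by
      ext a
      simp only [Set.mem_ofPred_eq, coe_filter, Fintype.mem_piFinset]
    rw [e, Set.ncard_coe_finset]
    exact h3 j
  · have e1 : ∀ v, ({j : Fin m | v ∈ W j}.ncard : ℝ) = ((univ.filter (fun j => v ∈ W j)).card : ℝ) := by
      intro v
      have : {j : Fin m | v ∈ W j} = ((univ.filter (fun j => v ∈ W j) : Finset (Fin m)) : Set (Fin m)) := by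
        ext j
        simp
      rw [this, Set.ncard_coe_finset]
    have e : {v : ℕ | v ∈ V ∧ ¬ ((5 / 18 - ε) * m ≤ ({j : Fin m | v ∈ W j}.ncard : ℝ) ∧
        ({j : Fin m | v ∈ W j}.ncard : ℝ) ≤ (5 / 18 + ε) * m)} =
        ((V.filter (fun v => ¬ |((univ.filter (fun j => v ∈ W j)).card : ℝ) / m - 5 / 18| ≤ ε) : Finset ℕ) :
          Set ℕ) := by
      ext v
      simp only [Set.mem_ofPred_eq, coe_filter]
      rw [e1 v, abs_le, sub_le_iff_le_add, div_le_iff₀ hm0, le_sub_iff_add_le, le_div_iff₀ hm0]
      have e2 : (-ε + 5 / 18) * (m : ℝ) = (5 / 18 - ε) * m := by ring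
      have e3 : (ε + 5 / 18) * (m : ℝ) = (5 / 18 + ε) * m := by ring
      rw [e2, e3]
    rw [e, Set.ncard_coe_finset]
    exact h4

theorem result (k : ℕ) (ε : ℝ) (hε : 0 < ε) : ∃ z n₀ m : ℕ, 1 ≤ m ∧
    ∀ (q b : ℕ) (V : Finset ℕ), 0 < q → (∀ v ∈ V, Nat.Coprime (b + v) q) →
      (∀ p : ℕ, p ≤ z → p.Prime → ¬ p ∣ q → ∃ r : ℕ, ∀ v ∈ V, ¬ v ≡ r [MOD p]) → n₀ ≤ V.card →
      (∃ (W : Fin m → Finset ℕ) (G : Finset (Fin (k + 1) → ℕ)), Cover k m ε V W G ∧
        ∀ l R : ℕ, ∃ C : ℕ, ∃ᶠ N : ℕ in atTop, ∀ a ∈ G, ∀ J : Finset (Fin (k + 1)), ∃ d : ℕ, 1 ≤ d ∧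
          (d : ℝ) ≤ (Real.log N) ^ C ∧
          (N : ℝ) / (Real.log N) ^ C ≤ (starts V a J q b R l d N : ℝ)) ∧
      ∀ l R : ℕ, ∃ C : ℕ, ∀ᶠ N : ℕ in atTop, ∃ (W : Fin m → Finset ℕ) (G : Finset (Fin (k + 1) → ℕ)),
        Cover k m ε V W G ∧
        ∀ a ∈ G, ∀ J : Finset (Fin (k + 1)), ∃ d : ℕ, 1 ≤ d ∧
          (d : ℝ) ≤ (Real.log N) ^ C ∧
          (N : ℝ) / (Real.log N) ^ C ≤ (starts V a J q b R l d N : ℝ) := by
  obtain ⟨z, n₀, m, hm, h⟩ := Pool.Agent.K7.H62.finPC k ε hε
  refine ⟨z, n₀, m, hm, fun q b V hq hcop hadm hn => ?_⟩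
  obtain ⟨⟨W, G, h1, h2⟩, h3⟩ := h q b V hq hcop hadm hn
  refine ⟨⟨W, G, cover_of hm h1, h2⟩, fun l R => ?_⟩
  obtain ⟨C, hC⟩ := h3 l R
  refine ⟨C, ?_⟩
  filter_upwards [hC] with N hN
  obtain ⟨W', G', h4, h5⟩ := hN
  exact ⟨W', G', cover_of hm h4, h5⟩

end Pool.Agent.Results.MP_8923e7_nt.NearlyCompleteCover
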