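import Pool.Agent.K7.H49.SM.Tup

/-!
# The quantitative prime k-tuples conjecture for almost all vectors of shifts composed of given small primes

Definitions used: `Pool.Agent.H373R2.T7.singZ a z`: the partial product over the primes `p ≤ z` of
`(1 - ν(p) / p) / (1 - 1 / p) ^ (k + 1)`, where `ν(p)` is the number of `r < p` for which `p` divides
`r (r + a 1) ... (r + a k)`; `Pool.Agent.H373R2.T7.tupleCount a N`: the sum of
`log p * ∏ i, log (p + a i)` over the primes `p ≤ N` for which all `p + a i` are primes;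
`Pool.Agent.H373R2.T7.Admissible a`: for every prime `p` there is an `r` such that `p` divides neither
`r` nor any `r + a i`; `Pool.Agent.H560R3.GB.primeTuples a N`: the number of primes `p ≤ N` for which
all `p + a i` are primes.

The sets of shifts are very thin: for `P i` the set of all primes up to `(log X) ^ K` there are
`X ^ (1 - 1 / K + o(1))` integers up to `X` composed of primes of `P i`.
-/

set_option autoImplicit false

namespace Pool.Agent.Results.MP_8923e7_nt.ShiftsOfGivenPrimes

open Finset Pool.Agent.H560R3.GB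
open Pool.Agent.H373R2.T7 (singZ tupleCount Admissible)

/-- The formula of Hardy and Littlewood for the shifts `a 1, ..., a k` and the primes up to `N`: the
singular series converges, its sum `S` predicts the weighted number of prime tuples with an error of
at most `N / log ^ U N`, and, if the shifts are admissible, `S` is positive and `S N / log ^ (k + 1) N`
predicts the number of prime tuples with a relative error of at most `ε`. -/
def Holds {k : ℕ} (ε : ℝ) (U N : ℕ) (a : Fin k → ℕ) : Prop :=
  ∃ S : ℝ, Filter.Tendsto (fun z => singZ (fun i => (a i : ℤ)) z) Filter.atTop (nhds S) ∧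
    |tupleCount (fun i => (a i : ℤ)) N - S * N| ≤ (N : ℝ) / Real.log N ^ U ∧
    (Admissible (fun i => (a i : ℤ)) → 0 < S ∧
      |(primeTuples a N : ℝ) - S * (N / Real.log N ^ (k + 1))| ≤ ε * (S * (N / Real.log N ^ (k + 1))))

open Classical in
/-- The positive integers up to `X` all of whose prime factors belong to `P`. -/
noncomputable def composed (P : Finset ℕ) (X : ℕ) : Finset ℕ :=
  (Icc 1 X).filter (fun l => ∀ p : ℕ, p.Prime → p ∣ l → p ∈ P)

open Classical in
/-- The number of the vectors `(l 1, ..., l k)`, `l i ≤ X` composed of primes of `P i`, for which the formula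
of Hardy and Littlewood fails for the shifts `c i + κ i * l i` and the primes up to `N`. -/
noncomputable def exceptions {k : ℕ} (ε : ℝ) (U N X : ℕ) (P : Fin k → Finset ℕ) (c κ : Fin k → ℕ) : ℕ :=
  ((Fintype.piFinset (fun i => composed (P i) X)).filter
    (fun l : Fin k → ℕ => ¬ Holds ε U N (fun i => c i + κ i * l i))).card

lemma composed_eq (P : Finset ℕ) (X : ℕ) : composed P X = Pool.Agent.K7.H49.SM.S P X := by
  classical
  ext l
  rw [Pool.Agent.K7.H49.SM.mem_S]
  unfold composed
  rw [mem_filter, mem_Icc]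
  constructor
  · rintro ⟨⟨h1, h2⟩, h3⟩
    refine ⟨h1, h2, fun p hp => ?_⟩
    exact h3 p (Nat.prime_of_mem_primeFactors hp) (Nat.dvd_of_mem_primeFactors hp)
  · rintro ⟨h1, h2, h3⟩
    refine ⟨⟨h1, h2⟩, fun p hp hpl => ?_⟩
    exact h3 (Nat.mem_primeFactors.2 ⟨hp, hpl, by omega⟩)

/-- Let `k ≥ 1`, `C`, `U` be natural numbers and `δ`, `ε > 0`. The following holds for every sufficiently
large `X`. For `i = 1, ..., k` let `2 ≤ y i ≤ (log X) ^ C`, let `P i` be ANY set of at least
`(y i) ^ (1 / 2 + δ) log X` primes up to `y i`, and let `c i ≥ 0`, `κ i ≥ 1` be integers. Let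
`X ≤ N ≤ X (log X) ^ C`, and `c i + κ i X ≤ C N` for all `i`. Then for all but at most a proportion
`(log N) ^ (-U)` of the vectors `(l 1, ..., l k)`, `l i ≤ X` composed of primes of `P i`, the formula of
Hardy and Littlewood holds for the shifts `c i + κ i * l i` and the primes up to `N`, in the precise form
given by `Holds`. -/
theorem result (k : ℕ) (hk : 1 ≤ k) (C U : ℕ) (δ ε : ℝ) (hδ : 0 < δ) (hε : 0 < ε) :
    ∃ X₀ : ℕ, ∀ X : ℕ, X₀ ≤ X →
    ∀ y : Fin k → ℕ, (∀ i, 2 ≤ y i ∧ (y i : ℝ) ≤ Real.log X ^ C) →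
    ∀ P : Fin k → Finset ℕ, (∀ i, ∀ p ∈ P i, p.Prime ∧ p ≤ y i) →
    (∀ i, (y i : ℝ) ^ (1 / 2 + δ) * Real.log X ≤ (P i).card) →
    ∀ c κ : Fin k → ℕ, (∀ i, 1 ≤ κ i) →
    ∀ N : ℕ, X ≤ N → (N : ℝ) ≤ X * Real.log X ^ C → (∀ i, c i + κ i * X ≤ C * N) →
      (exceptions ε U N X P c κ : ℝ) ≤ (∏ i, ((composed (P i) X).card : ℝ)) / Real.log N ^ U := by
  classical
  obtain ⟨X₀, hX₀⟩ := Pool.Agent.K7.H49.SM.tuples k hk C U δ ε hδ hε
  refine ⟨X₀, fun X hX y hy P hP hc c κ hκ N hXN hNX hcκ => ?_⟩
  have h1 := hX₀ X hX y hy P hP hc c κ hκ N hXN hNX hcκ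
  unfold exceptions
  simp only [composed_eq]
  refine le_trans (le_of_eq ?_) h1
  congr 2

end Pool.Agent.Results.MP_8923e7_nt.ShiftsOfGivenPrimes
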